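import Pool.Agent.Helper45.SP.GoalsF
import Pool.Agent.Helper19.Lin.IDT
import Pool.Agent.Helper68.Lin.CAU

/-! # Packet POW: displacements of powers -/

open Complex Metric Set Filter Topology
open scoped ContDiff ComplexConjugate

namespace Pool.Agent.Helper80.SP

open Pool.Agent.Helper95.Lin Pool.Agent.Helper10.SP Pool.Agent.Helper45.SP

theorem POW (hLCONV : S_LCONV) : S_POW := by
  intro b z₀ r A hA ρ hρ hρr
  obtain ⟨m, hm, hmr⟩ : ∃ m : ℝ, 0 < m ∧ ρ + 2 * m < r := ⟨(r - ρ) / 4, by linarith, by linarith⟩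
  have hUs : ball z₀ (ρ + 2 * m) ⊆ ball z₀ r := ball_subset_ball (by linarith)
  have hKU : closedBall z₀ (ρ + m) ⊆ ball z₀ (ρ + 2 * m) := closedBall_subset_ball (by linarith)
  obtain ⟨K', hK'U, -, -, C, hC, hcau⟩ := Helper68.Lin.CAU (n := b) (m := b) (ball z₀ (ρ + 2 * m))
    isOpen_ball (closedBall z₀ (ρ + m)) hKU (isCompact_closedBall _ _)
  have hε0 : 0 < min m (1 / (2 * (C + 1))) := lt_min hm (by positivity)
  obtain ⟨ε, hε, hεm, hεC⟩ : ∃ ε : ℝ, 0 < ε ∧ ε ≤ m ∧ C * ε ≤ 1 / 2 := by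
    refine ⟨_, hε0, min_le_left _ _, ?_⟩
    calc C * min m (1 / (2 * (C + 1))) ≤ C * (1 / (2 * (C + 1))) :=
          mul_le_mul_of_nonneg_left (min_le_right _ _) hC
      _ ≤ 1 / 2 := by
          rw [mul_one_div, div_le_div_iff₀ (by positivity) (by norm_num)]
          linarith
  obtain ⟨c, hc, hconv⟩ := hLCONV hA z₀ ρ hρ (ball_subset_ball hρr.le) (ρ + 2 * m) hmr ε hε
  refine ⟨c, hc, fun t ht htc J u hu hul z hz => ?_⟩
  have htn := hconv t ht htc
  have hun : ∀ l < J, Near z₀ (ρ + 2 * m) (u l).g ε := fun l hl => hconv _ (hu.mem l) (hul l hl)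
  have hb1 : ball z₀ (ρ + m) ⊆ ball z₀ (ρ + 2 * m) := ball_subset_ball (by linarith)
  have hmaps : ∀ f : Cn b → Cn b, Near z₀ (ρ + 2 * m) f ε → ∀ s ≤ ρ + m, ∀ w ∈ ball z₀ s,
      f w ∈ ball z₀ (s + m) := by
    intro f hf s hs w hw
    have h1 := hf w (ball_subset_ball (by linarith) hw)
    rw [mem_ball, dist_eq_norm] at hw ⊢
    calc ‖f w - z₀‖ = ‖(f w - w) + (w - z₀)‖ := by rw [sub_add_sub_cancel]
      _ ≤ ‖f w - w‖ + ‖w - z₀‖ := norm_add_le _ _
      _ < s + m := by linarith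
  -- (i)
  have hi : ∀ l < J, ∀ w ∈ ball z₀ (ρ + m), (u (l + 1)).g w = t.g ((u l).g w) := by
    intro l hl w hw
    obtain ⟨d, hd, hEq⟩ := hu.succ l hl
    have hdiff : DifferentiableOn ℂ (fun w => (u (l + 1)).g w - t.g ((u l).g w))
        (ball z₀ (ρ + m)) := by
      refine ((hA.g_holo _ (hu.mem _)).mono (hb1.trans hUs)).sub ?_
      refine ((hA.g_holo t ht).mono hUs).comp
        ((hA.g_holo _ (hu.mem l)).mono (hb1.trans hUs)) ?_
      intro x hx
      have := hmaps _ (hun l hl) (ρ + m) le_rfl x hx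
      convert this using 2
      ring
    have h0 := Helper19.Lin.idt (ball z₀ (ρ + m)) isOpen_ball (convex_ball _ _).isPreconnected
      _ hdiff z₀ (mem_ball_self (by linarith)) (by
        filter_upwards [ball_mem_nhds z₀ hd] with y hy
        rw [sub_eq_zero]
        exact (hEq y hy).1) w hw
    exact sub_eq_zero.1 h0
  have htz : t.g z ∈ ball z₀ (ρ + m) := hmaps _ htn ρ (by linarith) z hz
  have hz1 : z ∈ ball z₀ (ρ + m) := ball_subset_ball (by linarith) hz
  have hu0 : ∀ w ∈ ball z₀ r, (u 0).g w = w := fun w hw => (hu.zero w hw).1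
  -- (ii)
  have hii : ∀ l, l < J → (u l).g (t.g z) = (u (l + 1)).g z := by
    intro l
    induction l with
    | zero =>
      intro hl
      rw [hi 0 hl z hz1, hu0 _ (hUs (hb1 htz)), hu0 _ (hUs (hb1 hz1))]
    | succ l ih =>
      intro hl
      have hl' : l < J := by omega
      rw [hi l hl' _ htz, ih hl', hi (l + 1) hl z hz1]
  -- (iii)
  have hlip : ∀ l < J, ‖((u l).g (t.g z) - (u l).g z) - (t.g z - z)‖ ≤ 1 / 2 * ‖t.g z - z‖ := by
    intro l hl
    have hd : DifferentiableOn ℂ (fun w => (u l).g w - w) (ball z₀ (ρ + 2 * m)) :=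
      ((hA.g_holo _ (hu.mem l)).mono hUs).sub differentiableOn_id
    have h1 := (hcau _ hd ε (fun w hw => hun l hl w (hK'U hw))).2 (t.g z)
      (ball_subset_closedBall htz) z (ball_subset_closedBall hz1)
    have h2 : ((u l).g (t.g z) - (u l).g z) - (t.g z - z)
        = ((u l).g (t.g z) - t.g z) - ((u l).g z - z) := by abel
    rw [h2]
    exact h1.trans (mul_le_mul_of_nonneg_right hεC (norm_nonneg _))
  have hsum : ((u J).g z - z) - (J : ℝ) • (t.g z - z)
      = ∑ l ∈ Finset.range J, (((u l).g (t.g z) - (u l).g z) - (t.g z - z)) := by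
    rw [Finset.sum_sub_distrib, Finset.sum_const, Finset.card_range, Nat.cast_smul_eq_nsmul ℝ]
    congr 1
    have h3 : ∑ l ∈ Finset.range J, ((u l).g (t.g z) - (u l).g z)
        = ∑ l ∈ Finset.range J, ((u (l + 1)).g z - (u l).g z) :=
      Finset.sum_congr rfl fun l hl => by rw [hii l (Finset.mem_range.1 hl)]
    rw [h3, Finset.sum_range_sub (fun l => (u l).g z), hu0 z (hUs (hb1 hz1))]
  have hmain : ‖((u J).g z - z) - (J : ℝ) • (t.g z - z)‖ ≤ J * (1 / 2 * ‖t.g z - z‖) := by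
    rw [hsum]
    refine (norm_sum_le _ _).trans ?_
    refine (Finset.sum_le_sum fun l hl => hlip l (Finset.mem_range.1 hl)).trans ?_
    rw [Finset.sum_const, Finset.card_range, nsmul_eq_mul]
  have hJn : ‖(J : ℝ) • (t.g z - z)‖ = J * ‖t.g z - z‖ := by
    rw [norm_smul, Real.norm_of_nonneg (Nat.cast_nonneg J)]
  constructor
  · have h4 : ‖(J : ℝ) • (t.g z - z)‖ ≤ ‖(u J).g z - z‖
        + ‖((u J).g z - z) - (J : ℝ) • (t.g z - z)‖ := by
      have := norm_sub_le ((u J).g z - z) (((u J).g z - z) - (J : ℝ) • (t.g z - z))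
      rwa [sub_sub_cancel] at this
    rw [hJn] at h4
    linarith
  · have h5 : ‖(u J).g z - z‖ ≤ ‖((u J).g z - z) - (J : ℝ) • (t.g z - z)‖
        + ‖(J : ℝ) • (t.g z - z)‖ := by
      have := norm_add_le (((u J).g z - z) - (J : ℝ) • (t.g z - z)) ((J : ℝ) • (t.g z - z))
      rwa [sub_add_cancel] at this
    rw [hJn] at h5
    have h6 : 0 ≤ (J : ℝ) * ‖t.g z - z‖ := by positivity
    linarith

end Pool.Agent.Helper80.SP
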