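import Pool.Agent.Helper10.SP.GoalsT
import Pool.Agent.Helper95.Lin.Basics

/-! # Packet CACC: the Caccioppoli inequality -/

open Complex Metric Set Filter Topology MeasureTheory
open scoped ContDiff ComplexConjugate ComplexOrder

namespace Pool.Agent.Helper80.SP

open Pool.Agent.Helper95.Lin Pool.Agent.Helper10.SP

/-- A function which is smooth on an open set and vanishes off a compact subset is smooth. -/
theorem smooth_ext {n : ℕ} {T K : Set (Cn n)} (hT : IsOpen T) (hK : IsClosed K) (hKT : K ⊆ T)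
    {F : Type*} [NormedAddCommGroup F] [NormedSpace ℝ F]
    {Y : Cn n → F} (hY : ContDiffOn ℝ ∞ Y T) (h0 : ∀ x ∉ K, Y x = 0) : ContDiff ℝ ∞ Y := by
  rw [contDiff_iff_contDiffAt]
  intro x
  by_cases hx : x ∈ T
  · exact hY.contDiffAt (hT.mem_nhds hx)
  · have hx' : x ∈ Kᶜ := fun h => hx (hKT h)
    have h1 : Y =ᶠ[𝓝 x] fun _ => 0 := by
      filter_upwards [hK.isOpen_compl.mem_nhds hx'] with y hy using h0 y hy
    exact contDiffAt_const.congr_of_eventuallyEq h1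

theorem integral_cd {n : ℕ} {Y : Cn n → ℂ} (hY : ContDiff ℝ ∞ Y) (hc : HasCompactSupport Y)
    (l : Fin n) : Integrable (cd l Y) ∧ ∫ x, cd l Y x = 0 := by
  have hcont : ∀ v : Cn n, Continuous fun x => fderiv ℝ Y x v := fun v =>
    (hY.continuous_fderiv (by simp)).clm_apply continuous_const
  have hI : ∀ v : Cn n, Integrable fun x => fderiv ℝ Y x v := fun v => by
    refine (hcont v).integrable_of_hasCompactSupport ?_
    refine (hc.fderiv (𝕜 := ℝ)).mono' ?_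
    intro x hx
    apply subset_tsupport
    rw [Function.mem_support] at hx ⊢
    intro h
    exact hx (by rw [h]; rfl)
  have hz : ∀ v : Cn n, ∫ x, fderiv ℝ Y x v = 0 := by
    intro v
    have hYI : Integrable Y := hY.continuous.integrable_of_hasCompactSupport hc
    have h := integral_smul_fderiv_eq_neg_fderiv_smul_of_integrable
      (μ := (volume : Measure (Cn n))) (𝕜 := ℝ)
      (f := fun _ => (1 : ℝ)) (g := Y) (v := v) (by simp)
      (by simpa using hI v) (by simpa using hYI)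
      (fun x _ => differentiableAt_const _) (fun x _ => hY.differentiable (by simp) x)
    simpa using h
  have e : cd l Y = fun x => fderiv ℝ Y x (Pi.single l 1) - I * fderiv ℝ Y x (Pi.single l I) := rfl
  refine ⟨?_, ?_⟩
  · rw [e]
    exact (hI _).sub ((hI _).const_mul I)
  · rw [e, integral_sub (hI _) ((hI _).const_mul I), integral_const_mul, hz, hz]
    simp

theorem cd_sub {n : ℕ} {f g : Cn n → ℂ} {x : Cn n} (hf : DifferentiableAt ℝ f x)
    (hg : DifferentiableAt ℝ g x) (l : Fin n) :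
    cd l (fun y => f y - g y) x = cd l f x - cd l g x := by
  unfold cd
  rw [show (fun y => f y - g y) = f - g from rfl, fderiv_sub hf hg]
  simp
  ring

/-- A continuous positive definite matrix is uniformly positive definite on compact sets. -/
theorem exists_lower {n : ℕ} {K : Set (Cn n)} (hK : IsCompact K)
    {A : Cn n → Matrix (Fin n) (Fin n) ℂ} (hA : ∀ j k, ContinuousOn (fun x => A x j k) K)
    (hP : ∀ x ∈ K, (A x).PosDef) : ∃ lam : ℝ, 0 < lam ∧ ∀ x ∈ K, ∀ a : Cn n,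
      lam * ∑ k, ‖a k‖ ^ 2 ≤ (∑ j, ∑ k, A x k j * a k * conj (a j)).re := by
  have hpos : ∀ x ∈ K, ∀ a : Cn n, a ≠ 0 → 0 < (∑ j, ∑ k, A x k j * a k * conj (a j)).re := by
    intro x hx a ha
    have h1 := (hP x hx).dotProduct_mulVec_pos (x := star a) (by simpa using ha)
    have h2 : (star (star a) ⬝ᵥ (A x).mulVec (star a)) =
        ∑ j, ∑ k, A x k j * a k * conj (a j) := by
      rw [Finset.sum_comm]
      simp only [star_star, dotProduct, Matrix.mulVec, Finset.mul_sum]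
      refine Finset.sum_congr rfl fun k _ => Finset.sum_congr rfl fun j _ => ?_
      simp only [Pi.star_apply, RCLike.star_def]
      ring
    rw [h2] at h1
    exact (Complex.pos_iff.1 h1).1
  have hc : ContinuousOn (fun p : Cn n × Cn n =>
      (∑ j, ∑ k, A p.1 k j * p.2 k * conj (p.2 j)).re) (K ×ˢ sphere (0 : Cn n) 1) := by
    refine Complex.continuous_re.comp_continuousOn ?_
    refine continuousOn_finsetSum _ fun j _ => continuousOn_finsetSum _ fun k _ => ?_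
    refine ((((hA k j).comp continuousOn_fst fun p hp => hp.1)).mul ?_).mul ?_
    · exact ((continuous_apply k).comp continuous_snd).continuousOn
    · exact (Complex.continuous_conj.comp ((continuous_apply j).comp continuous_snd)).continuousOn
  obtain ⟨lam, hlam, hmin⟩ : ∃ lam : ℝ, 0 < lam ∧ ∀ x ∈ K, ∀ a ∈ sphere (0 : Cn n) 1,
      lam ≤ (∑ j, ∑ k, A x k j * a k * conj (a j)).re := by
    rcases (K ×ˢ sphere (0 : Cn n) 1).eq_empty_or_nonempty with he | hne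
    · refine ⟨1, one_pos, fun x hx a ha => ?_⟩
      exact absurd (show (x, a) ∈ K ×ˢ sphere (0 : Cn n) 1 from ⟨hx, ha⟩) (by rw [he]; simp)
    · obtain ⟨p, hp, hpm⟩ := (hK.prod (isCompact_sphere (0 : Cn n) 1)).exists_isMinOn hne hc
      refine ⟨_, hpos p.1 hp.1 p.2 ?_, fun x hx a ha => hpm (show (x, a) ∈ _ from ⟨hx, ha⟩)⟩
      intro h0
      have := hp.2
      rw [h0] at this
      simp at this
  refine ⟨lam / (n + 1), by positivity, fun x hx a => ?_⟩
  by_cases ha : a = 0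
  · subst ha
    simp
  have hna : 0 < ‖a‖ := norm_pos_iff.2 ha
  have h1 := hmin x hx ((‖a‖⁻¹ : ℂ) • a) (by
    rw [mem_sphere, dist_zero_right, norm_smul, norm_inv, Complex.norm_real, norm_norm,
      inv_mul_cancel₀ hna.ne'])
  have h2 : (∑ j, ∑ k, A x k j * ((‖a‖⁻¹ : ℂ) • a) k * conj (((‖a‖⁻¹ : ℂ) • a) j)) =
      ((‖a‖⁻¹ ^ 2 : ℝ) : ℂ) * ∑ j, ∑ k, A x k j * a k * conj (a j) := by
    rw [Finset.mul_sum]
    refine Finset.sum_congr rfl fun j _ => ?_
    rw [Finset.mul_sum]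
    refine Finset.sum_congr rfl fun k _ => ?_
    simp only [Pi.smul_apply, smul_eq_mul, map_mul, map_inv₀, Complex.conj_ofReal]
    push_cast
    ring
  rw [h2, Complex.re_ofReal_mul] at h1
  have h3 : ∑ k, ‖a k‖ ^ 2 ≤ (n + 1) * ‖a‖ ^ 2 := by
    calc ∑ k, ‖a k‖ ^ 2 ≤ ∑ _k : Fin n, ‖a‖ ^ 2 :=
          Finset.sum_le_sum fun k _ => pow_le_pow_left₀ (norm_nonneg _) (norm_le_pi_norm a k) 2
      _ = n * ‖a‖ ^ 2 := by simp
      _ ≤ (n + 1) * ‖a‖ ^ 2 := by nlinarith [sq_nonneg ‖a‖]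
  have h4 : lam * ‖a‖ ^ 2 ≤ (∑ j, ∑ k, A x k j * a k * conj (a j)).re := by
    have h5 := mul_le_mul_of_nonneg_right h1 (sq_nonneg ‖a‖)
    calc lam * ‖a‖ ^ 2 ≤ _ := h5
      _ = (∑ j, ∑ k, A x k j * a k * conj (a j)).re := by
          field_simp
  calc lam / (n + 1) * ∑ k, ‖a k‖ ^ 2 ≤ lam / (n + 1) * ((n + 1) * ‖a‖ ^ 2) :=
        mul_le_mul_of_nonneg_left h3 (by positivity)
    _ = lam * ‖a‖ ^ 2 := by field_simp
    _ ≤ _ := h4

theorem young (lam x y : ℝ) (hlam : 0 < lam) : 2 * x * y ≤ lam / 4 * x ^ 2 + 4 / lam * y ^ 2 := by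
  have h := sq_nonneg (lam / 4 * x - y)
  have h1 : lam / 4 * x ^ 2 + 4 / lam * y ^ 2 - 2 * x * y = 4 / lam * (lam / 4 * x - y) ^ 2 := by
    field_simp
    ring
  have h2 : 0 ≤ 4 / lam * (lam / 4 * x - y) ^ 2 := by positivity
  linarith

/-- The pointwise inequality. -/
theorem pointwise {n : ℕ} {lam M : ℝ} (hlam : 0 < lam) (hM : 0 ≤ M)
    (A : Matrix (Fin n) (Fin n) ℂ) (hA : ∀ j k, ‖A j k‖ ≤ M) (d : Fin n → ℂ) (hd : ∀ j, ‖d j‖ ≤ M)
    (s : ℝ) (hs : |s| ≤ M) (v : ℂ) (a φ : Cn n)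
    (hlow : lam * ∑ k, ‖a k‖ ^ 2 ≤ (∑ j, ∑ k, A k j * a k * conj (a j)).re) :
    lam / 2 * (s ^ 2 * ∑ k, ‖a k‖ ^ 2) -
      ((4 / lam * (n * (n * M ^ 2) ^ 2) + n * (M ^ 2) ^ 2) * ‖v‖ ^ 2 +
        (1 + 4 / lam * M ^ 2) * ∑ j, ‖φ j‖ ^ 2) ≤
      (∑ j, ((∑ k, A k j * a k) - φ j) * ((s : ℂ) * s * conj (a j) +
        conj v * (s * d j + s * d j))).re := by
  have hexp : ∑ j, ((∑ k, A k j * a k) - φ j) * ((s : ℂ) * s * conj (a j) +
        conj v * (s * d j + s * d j)) =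
      ((s ^ 2 : ℝ) : ℂ) * (∑ j, ∑ k, A k j * a k * conj (a j)) +
      ∑ j, ∑ k, 2 * s * conj v * d j * A k j * a k -
      ∑ j, 2 * s * conj v * d j * φ j - ∑ j, (s : ℂ) * s * φ j * conj (a j) := by
    rw [Finset.mul_sum, ← Finset.sum_add_distrib, ← Finset.sum_sub_distrib,
      ← Finset.sum_sub_distrib]
    refine Finset.sum_congr rfl fun j _ => ?_
    have h1 : (∑ k, A k j * a k * conj (a j)) = (∑ k, A k j * a k) * conj (a j) := by
      rw [Finset.sum_mul]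
    have h2 : (∑ k, 2 * s * conj v * d j * A k j * a k) =
        2 * s * conj v * d j * ∑ k, A k j * a k := by
      rw [Finset.mul_sum]
      exact Finset.sum_congr rfl fun k _ => by ring
    rw [h1, h2]
    push_cast
    ring
  rw [hexp, Complex.sub_re, Complex.sub_re, Complex.add_re, Complex.re_ofReal_mul]
  have hS := mul_le_mul_of_nonneg_left hlow (sq_nonneg s)
  -- second term
  have hT2 : -(lam / 4 * (s ^ 2 * ∑ k, ‖a k‖ ^ 2) + 4 / lam * (n * (n * M ^ 2) ^ 2) * ‖v‖ ^ 2) ≤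
      (∑ j, ∑ k, 2 * s * conj v * d j * A k j * a k).re := by
    refine le_trans ?_ (neg_le_of_abs_le (Complex.abs_re_le_norm _))
    rw [neg_le_neg_iff]
    have h1 : ‖∑ j, ∑ k, 2 * s * conj v * d j * A k j * a k‖ ≤
        ∑ k, 2 * (|s| * ‖a k‖) * (n * M ^ 2 * ‖v‖) := by
      rw [Finset.sum_comm]
      refine (norm_sum_le _ _).trans (Finset.sum_le_sum fun k _ => ?_)
      refine (norm_sum_le _ _).trans ?_
      have h2 : ∀ j ∈ Finset.univ, ‖2 * s * conj v * d j * A k j * a k‖ ≤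
          2 * (|s| * ‖a k‖) * (M ^ 2 * ‖v‖) := by
        intro j _
        rw [norm_mul, norm_mul, norm_mul, norm_mul, norm_mul, RCLike.norm_conj, Complex.norm_real,
          Real.norm_eq_abs, Complex.norm_two]
        have h3 : ‖d j‖ * ‖A k j‖ ≤ M * M := mul_le_mul (hd j) (hA k j) (norm_nonneg _) hM
        have h4 : 0 ≤ 2 * |s| * ‖v‖ * ‖a k‖ := by positivity
        calc 2 * |s| * ‖v‖ * ‖d j‖ * ‖A k j‖ * ‖a k‖ = (2 * |s| * ‖v‖ * ‖a k‖) * (‖d j‖ * ‖A k j‖) := by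
              ring
          _ ≤ (2 * |s| * ‖v‖ * ‖a k‖) * (M * M) := mul_le_mul_of_nonneg_left h3 h4
          _ = 2 * (|s| * ‖a k‖) * (M ^ 2 * ‖v‖) := by ring
      refine (Finset.sum_le_sum h2).trans (le_of_eq ?_)
      simp
      ring
    refine h1.trans ?_
    have h5 : ∀ k ∈ Finset.univ, 2 * (|s| * ‖a k‖) * (n * M ^ 2 * ‖v‖) ≤
        lam / 4 * (s ^ 2 * ‖a k‖ ^ 2) + 4 / lam * ((n * M ^ 2) ^ 2 * ‖v‖ ^ 2) := by
      intro k _
      refine (young lam _ _ hlam).trans (le_of_eq ?_)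
      rw [mul_pow, sq_abs, mul_pow (_ * M ^ 2)]
    refine (Finset.sum_le_sum h5).trans (le_of_eq ?_)
    rw [Finset.sum_add_distrib, ← Finset.mul_sum, ← Finset.mul_sum]
    simp
    ring
  -- third term
  have hT3 : (∑ j, 2 * s * conj v * d j * φ j).re ≤
      n * (M ^ 2) ^ 2 * ‖v‖ ^ 2 + ∑ j, ‖φ j‖ ^ 2 := by
    refine (Complex.re_le_norm _).trans ((norm_sum_le _ _).trans ?_)
    have h2 : ∀ j ∈ Finset.univ, ‖2 * s * conj v * d j * φ j‖ ≤
        (M ^ 2) ^ 2 * ‖v‖ ^ 2 + ‖φ j‖ ^ 2 := by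
      intro j _
      rw [norm_mul, norm_mul, norm_mul, norm_mul, RCLike.norm_conj, Complex.norm_real,
        Real.norm_eq_abs, Complex.norm_two]
      have h3 : |s| * ‖d j‖ ≤ M * M := mul_le_mul hs (hd j) (norm_nonneg _) hM
      have h4 : 0 ≤ 2 * ‖v‖ * ‖φ j‖ := by positivity
      calc 2 * |s| * ‖v‖ * ‖d j‖ * ‖φ j‖ = (2 * ‖v‖ * ‖φ j‖) * (|s| * ‖d j‖) := by ring
        _ ≤ (2 * ‖v‖ * ‖φ j‖) * (M * M) := mul_le_mul_of_nonneg_left h3 h4
        _ ≤ (M ^ 2) ^ 2 * ‖v‖ ^ 2 + ‖φ j‖ ^ 2 := by nlinarith [sq_nonneg (M ^ 2 * ‖v‖ - ‖φ j‖)]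
    refine (Finset.sum_le_sum h2).trans (le_of_eq ?_)
    rw [Finset.sum_add_distrib]
    simp
    ring
  -- fourth term
  have hT4 : (∑ j, (s : ℂ) * s * φ j * conj (a j)).re ≤
      lam / 4 * (s ^ 2 * ∑ k, ‖a k‖ ^ 2) + 4 / lam * M ^ 2 * ∑ j, ‖φ j‖ ^ 2 := by
    refine (Complex.re_le_norm _).trans ((norm_sum_le _ _).trans ?_)
    have h2 : ∀ j ∈ Finset.univ, ‖(s : ℂ) * s * φ j * conj (a j)‖ ≤
        lam / 4 * (s ^ 2 * ‖a j‖ ^ 2) + 4 / lam * M ^ 2 * ‖φ j‖ ^ 2 := by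
      intro j _
      rw [norm_mul, norm_mul, norm_mul, RCLike.norm_conj, Complex.norm_real, Real.norm_eq_abs]
      have h3 := young lam (|s| * ‖a j‖) (|s| * ‖φ j‖) hlam
      rw [mul_pow, sq_abs, mul_pow, sq_abs] at h3
      have h4 : s ^ 2 ≤ M ^ 2 := by
        rw [← sq_abs s]
        exact pow_le_pow_left₀ (abs_nonneg _) hs 2
      have h5 : 4 / lam * (s ^ 2 * ‖φ j‖ ^ 2) ≤ 4 / lam * M ^ 2 * ‖φ j‖ ^ 2 := by
        rw [mul_assoc (4 / lam)]
        exact mul_le_mul_of_nonneg_left (mul_le_mul_of_nonneg_right h4 (sq_nonneg _))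
          (by positivity)
      have h6 : 0 ≤ |s| * ‖a j‖ * (|s| * ‖φ j‖) := by positivity
      linarith
    refine (Finset.sum_le_sum h2).trans (le_of_eq ?_)
    rw [Finset.sum_add_distrib, ← Finset.mul_sum, ← Finset.mul_sum, ← Finset.mul_sum]
  have e1 : s ^ 2 * (lam * ∑ k, ‖a k‖ ^ 2) = lam * (s ^ 2 * ∑ k, ‖a k‖ ^ 2) := by ring
  rw [e1] at hS
  linarith

theorem cacc (hWIRT : S_WIRT) : S_CACC := by
  intro n T A hT hA hP χ hχ
  set K := tsupport χ with hKdef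
  have hKc : IsCompact K := hχ.2.1
  have hKT : K ⊆ T := hχ.2.2
  have hAK : ∀ j k, ContinuousOn (fun x => A x j k) K := fun j k => (hA j k).continuousOn.mono hKT
  obtain ⟨lam, hlam, hlow⟩ := exists_lower hKc hAK fun x hx => hP x (hKT hx)
  -- the function χ, complex valued
  have hcs : ContDiff ℝ ∞ (fun x => (χ x : ℂ)) := Complex.ofRealCLM.contDiff.comp hχ.1
  have hcd : ∀ j, ContDiffOn ℝ ∞ (cd j fun x => (χ x : ℂ)) T := fun j =>
    ((hWIRT T hT _ _ hcs.contDiffOn hcs.contDiffOn).1 j).1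
  obtain ⟨M, hM0, hMA, hMd, hMs⟩ : ∃ M : ℝ, 0 ≤ M ∧ (∀ x ∈ K, ∀ j k, ‖A x j k‖ ≤ M) ∧
      (∀ x ∈ K, ∀ j, ‖cd j (fun x => (χ x : ℂ)) x‖ ≤ M) ∧ ∀ x ∈ K, |χ x| ≤ M := by
    have h1 : ∀ j k, ∃ C : ℝ, ∀ x ∈ K, ‖A x j k‖ ≤ C := fun j k =>
      hKc.exists_bound_of_continuousOn (hAK j k)
    have h2 : ∀ j, ∃ C : ℝ, ∀ x ∈ K, ‖cd j (fun x => (χ x : ℂ)) x‖ ≤ C := fun j =>
      hKc.exists_bound_of_continuousOn ((hcd j).continuousOn.mono hKT)
    obtain ⟨C3, hC3⟩ := hKc.exists_bound_of_continuousOn hχ.1.continuous.continuousOn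
    choose C1 hC1 using h1
    choose C2 hC2 using h2
    refine ⟨(∑ j, ∑ k, |C1 j k|) + (∑ j, |C2 j|) + |C3|, by positivity, ?_, ?_, ?_⟩
    · intro x hx j k
      have h3 : |C1 j k| ≤ ∑ k, |C1 j k| :=
        Finset.single_le_sum (f := fun k => |C1 j k|) (fun _ _ => abs_nonneg _)
          (Finset.mem_univ k)
      have h4 : ∑ k, |C1 j k| ≤ ∑ j, ∑ k, |C1 j k| :=
        Finset.single_le_sum (f := fun j => ∑ k, |C1 j k|)
          (fun _ _ => Finset.sum_nonneg fun _ _ => abs_nonneg _) (Finset.mem_univ j)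
      have h5 : 0 ≤ ∑ j, |C2 j| := Finset.sum_nonneg fun _ _ => abs_nonneg _
      have h6 := abs_nonneg C3
      linarith [hC1 j k x hx, le_abs_self (C1 j k)]
    · intro x hx j
      have h3 : |C2 j| ≤ ∑ j, |C2 j| :=
        Finset.single_le_sum (f := fun j => |C2 j|) (fun _ _ => abs_nonneg _)
          (Finset.mem_univ j)
      have h4 : 0 ≤ ∑ j, ∑ k, |C1 j k| :=
        Finset.sum_nonneg fun _ _ => Finset.sum_nonneg fun _ _ => abs_nonneg _
      have h6 := abs_nonneg C3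
      linarith [hC2 j x hx, le_abs_self (C2 j)]
    · intro x hx
      have h4 : 0 ≤ ∑ j, ∑ k, |C1 j k| :=
        Finset.sum_nonneg fun _ _ => Finset.sum_nonneg fun _ _ => abs_nonneg _
      have h5 : 0 ≤ ∑ j, |C2 j| := Finset.sum_nonneg fun _ _ => abs_nonneg _
      have h6 := hC3 x hx
      rw [Real.norm_eq_abs] at h6
      linarith [le_abs_self C3]
  set B1 := 4 / lam * (n * (n * M ^ 2) ^ 2) + n * (M ^ 2) ^ 2 with hB1
  set B2 := 1 + 4 / lam * M ^ 2 with hB2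
  have hB1' : 0 ≤ B1 := by positivity
  have hB2' : 0 ≤ B2 := by positivity
  refine ⟨2 / lam * (B1 + B2), fun u F hu hF heq => ?_⟩
  have hFj : ∀ j, ContDiffOn ℝ ∞ (fun y => F y j) T := fun j => contDiffOn_pi.1 hF j
  have hcdb : ∀ k, ContDiffOn ℝ ∞ (cdb k u) T := fun k => ((hWIRT T hT u u hu hu).1 k).2
  have hAu : ∀ j, ContDiffOn ℝ ∞ (fun y => ∑ k, A y k j * cdb k u y) T := fun j =>
    ContDiffOn.sum fun k _ => (hA k j).mul (hcdb k)
  set G : Fin n → Cn n → ℂ := fun j y => (∑ k, A y k j * cdb k u y) - F y j with hG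
  have hGs : ∀ j, ContDiffOn ℝ ∞ (G j) T := fun j => (hAu j).sub (hFj j)
  have hconj : ContDiffOn ℝ ∞ (fun y => conj (u y)) T :=
    Complex.conjCLE.contDiff.comp_contDiffOn hu
  set f : Cn n → ℂ := fun y => ((χ y : ℂ) * χ y) * conj (u y) with hf
  have hcc : ContDiffOn ℝ ∞ (fun y => (χ y : ℂ) * χ y) T := (hcs.mul hcs).contDiffOn
  have hfs : ContDiffOn ℝ ∞ f T := hcc.mul hconj
  have hf0 : ∀ x ∉ K, f x = 0 := by
    intro x hx
    simp [hf, image_eq_zero_of_notMem_tsupport hx]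
  -- derivative of f
  have hcdf : ∀ j, ∀ x ∈ T, cd j f x = (χ x : ℂ) * χ x * conj (cdb j u x) +
      conj (u x) * (χ x * cd j (fun x => (χ x : ℂ)) x + χ x * cd j (fun x => (χ x : ℂ)) x) := by
    intro j x hx
    rw [((hWIRT T hT _ _ hcc hconj).2.2.1 j x hx).1, ((hWIRT T hT _ _ hu hu).2.2.2.1 j x hx).1,
      ((hWIRT T hT _ _ hcs.contDiffOn hcs.contDiffOn).2.2.1 j x hx).1]
  -- the vector field
  have hYs : ∀ j, ContDiff ℝ ∞ fun x => f x * G j x := fun j =>
    smooth_ext hT (isClosed_tsupport χ) hKT (hfs.mul (hGs j)) fun x hx => by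
      rw [hf0 x hx, zero_mul]
  have hYc : ∀ j, HasCompactSupport fun x => f x * G j x := fun j =>
    HasCompactSupport.intro hKc fun x hx => by rw [hf0 x hx, zero_mul]
  have hY0 : ∫ x, ∑ j, cd j (fun x => f x * G j x) x = 0 := by
    rw [integral_finsetSum _ fun j _ => (integral_cd (hYs j) (hYc j) j).1]
    exact Finset.sum_eq_zero fun j _ => (integral_cd (hYs j) (hYc j) j).2
  have hcd0 : ∀ x ∉ K, ∀ j, cd j (fun x => f x * G j x) x = 0 := by
    intro x hx j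
    have h1 : (fun x => f x * G j x) =ᶠ[𝓝 x] fun _ => 0 := by
      filter_upwards [(isClosed_tsupport χ).isOpen_compl.mem_nhds hx] with y hy
      rw [hf0 y hy, zero_mul]
    unfold cd
    rw [h1.fderiv_eq]
    simp
  have hdiv : ∀ x ∈ K, ∑ j, cd j (G j) x = 0 := by
    intro x hx
    have h1 : ∀ j, cd j (G j) x = cd j (fun y => ∑ k, A y k j * cdb k u y) x -
        cd j (fun y => F y j) x := fun j =>
      cd_sub ((hAu j).contDiffAt (hT.mem_nhds (hKT hx)) |>.differentiableAt (by simp))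
        ((hFj j).contDiffAt (hT.mem_nhds (hKT hx)) |>.differentiableAt (by simp)) j
    rw [Finset.sum_congr rfl fun j _ => h1 j, Finset.sum_sub_distrib, heq x hx, sub_self]
  set q : Cn n → ℂ := fun x => ∑ j, ((∑ k, A x k j * cdb k u x) - F x j) *
    ((χ x : ℂ) * χ x * conj (cdb j u x) +
      conj (u x) * (χ x * cd j (fun x => (χ x : ℂ)) x + χ x * cd j (fun x => (χ x : ℂ)) x)) with hq
  have hqK : ∀ x ∈ K, ∑ j, cd j (fun x => f x * G j x) x = q x := by
    intro x hx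
    have h1 : ∀ j, cd j (fun x => f x * G j x) x = f x * cd j (G j) x + G j x * cd j f x :=
      fun j => ((hWIRT T hT _ _ hfs (hGs j)).2.2.1 j x (hKT hx)).1
    rw [Finset.sum_congr rfl fun j _ => h1 j, Finset.sum_add_distrib, ← Finset.mul_sum,
      hdiv x hx, mul_zero, zero_add]
    exact Finset.sum_congr rfl fun j _ => by rw [hcdf j x (hKT hx)]
  have hKm : MeasurableSet K := (isClosed_tsupport χ).measurableSet
  have hq0 : ∫ x in K, q x = 0 := by
    rw [← hY0, ← setIntegral_congr_fun hKm hqK]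
    exact setIntegral_eq_integral_of_forall_compl_eq_zero fun x hx =>
      Finset.sum_eq_zero fun j _ => hcd0 x hx j
  have hqc : ContinuousOn q K := by
    refine continuousOn_finsetSum _ fun j _ => ?_
    have hχc : ContinuousOn (fun x => (χ x : ℂ)) K := hcs.continuous.continuousOn
    have hdc : ContinuousOn (cd j fun x => (χ x : ℂ)) K := (hcd j).continuousOn.mono hKT
    have huc : ContinuousOn (fun x => conj (u x)) K := hconj.continuousOn.mono hKT
    have hbc : ContinuousOn (fun x => conj (cdb j u x)) K :=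
      Complex.continuous_conj.comp_continuousOn ((hcdb j).continuousOn.mono hKT)
    exact (((hAu j).sub (hFj j)).continuousOn.mono hKT).mul (((hχc.mul hχc).mul hbc).add
      (huc.mul ((hχc.mul hdc).add (hχc.mul hdc))))
  have hqI : IntegrableOn q K := hqc.integrableOn_compact hKc
  have hqre : ∫ x in K, (q x).re = 0 := by
    have := integral_re hqI
    simp only [RCLike.re_to_complex] at this
    rw [this, hq0, Complex.zero_re]
  have hgc : ContinuousOn (fun x => χ x ^ 2 * ∑ k, ‖cdb k u x‖ ^ 2) K := by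
    refine (hχ.1.continuous.continuousOn.pow 2).mul (continuousOn_finsetSum _ fun k _ => ?_)
    exact ((hcdb k).continuousOn.mono hKT).norm.pow 2
  have huc2 : ContinuousOn (fun x => ‖u x‖ ^ 2) K := (hu.continuousOn.mono hKT).norm.pow 2
  have hFc2 : ContinuousOn (fun x => ∑ j, ‖F x j‖ ^ 2) K :=
    continuousOn_finsetSum _ fun j _ => ((hFj j).continuousOn.mono hKT).norm.pow 2
  have hgI := hgc.integrableOn_compact (μ := volume) hKc
  have huI := huc2.integrableOn_compact (μ := volume) hKc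
  have hFI := hFc2.integrableOn_compact (μ := volume) hKc
  have hmain : ∫ x in K, (lam / 2 * (χ x ^ 2 * ∑ k, ‖cdb k u x‖ ^ 2) -
      (B1 * ‖u x‖ ^ 2 + B2 * ∑ j, ‖F x j‖ ^ 2)) ≤ ∫ x in K, (q x).re := by
    refine setIntegral_mono_on ?_ ?_ hKm ?_
    · exact (hgI.const_mul _).sub ((huI.const_mul _).add (hFI.const_mul _))
    · exact hqI.re
    · intro x hx
      exact pointwise hlam hM0 (A x) (hMA x hx) (fun j => cd j (fun x => (χ x : ℂ)) x) (hMd x hx)
        (χ x) (hMs x hx) (u x) (fun k => cdb k u x) (F x) (hlow x hx _)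
  rw [hqre, integral_sub (f := fun x => lam / 2 * (χ x ^ 2 * ∑ k, ‖cdb k u x‖ ^ 2))
    (g := fun x => B1 * ‖u x‖ ^ 2 + B2 * ∑ j, ‖F x j‖ ^ 2)
    (hgI.const_mul _) ((huI.const_mul _).add (hFI.const_mul _)),
    integral_add (f := fun x => B1 * ‖u x‖ ^ 2) (g := fun x => B2 * ∑ j, ‖F x j‖ ^ 2)
    (huI.const_mul _) (hFI.const_mul _), integral_const_mul, integral_const_mul,
    integral_const_mul] at hmain
  have hTK : ∫ x in T, χ x ^ 2 * ∑ k, ‖cdb k u x‖ ^ 2 =
      ∫ x in K, χ x ^ 2 * ∑ k, ‖cdb k u x‖ ^ 2 := by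
    refine setIntegral_eq_of_subset_of_forall_sdiff_eq_zero hT.measurableSet hKT ?_
    intro x hx
    rw [image_eq_zero_of_notMem_tsupport hx.2]
    ring
  rw [hTK]
  set I1 := ∫ x in K, χ x ^ 2 * ∑ k, ‖cdb k u x‖ ^ 2 with hI1
  set I2 := ∫ x in K, ‖u x‖ ^ 2 with hI2
  set I3 := ∫ x in K, ∑ j, ‖F x j‖ ^ 2 with hI3
  have hI2' : 0 ≤ I2 := integral_nonneg fun x => by positivity
  have hI3' : 0 ≤ I3 := integral_nonneg fun x => by positivity
  have h9 : lam / 2 * I1 ≤ (B1 + B2) * (I2 + I3) := by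
    have h10 := mul_nonneg hB1' hI3'
    have h11 := mul_nonneg hB2' hI2'
    linarith
  calc I1 = 2 / lam * (lam / 2 * I1) := by field_simp
    _ ≤ 2 / lam * ((B1 + B2) * (I2 + I3)) := mul_le_mul_of_nonneg_left h9 (by positivity)
    _ = 2 / lam * (B1 + B2) * (I2 + I3) := by ring

end Pool.Agent.Helper80.SP
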