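import Pool.Agent.Helper10.SP.GoalsK

/-! # Packet NONI: the singular weight is not integrable -/

open Complex Metric Set Filter Topology MeasureTheory
open scoped ContDiff ComplexConjugate ComplexOrder

namespace Pool.Agent.Helper80.SP

open Pool.Agent.Helper95.Lin Pool.Agent.Helper10.SP

theorem vol_ball {b : ℕ} (z₀ : Cn b) {ρ : ℝ} (hρ : 0 < ρ) :
    (volume : Measure (Cn b)).real (ball z₀ ρ) =
      ρ ^ (2 * b) * (volume : Measure (Cn b)).real (ball 0 1) := by
  have h1 := Measure.addHaar_ball_of_pos (volume : Measure (Cn b)) z₀ hρ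
  have h2 : Module.finrank ℝ (Cn b) = 2 * b := by
    rw [Module.finrank_pi_fintype]
    simp [Complex.finrank_real_complex, mul_comm]
  rw [measureReal_def, h1, ENNReal.toReal_mul, ENNReal.toReal_ofReal (by positivity), h2,
    measureReal_def]

theorem noni : S_NONI := by
  intro b z₀ r K hb hr hK L
  set v : ℝ := (volume : Measure (Cn b)).real (ball 0 1) with hv
  have hv0 : 0 < v := by
    rw [hv, measureReal_def]
    exact ENNReal.toReal_pos (measure_ball_pos _ _ one_pos).ne' measure_ball_lt_top.ne
  set c : ℝ := 3 / 4 * v / (2 * K) ^ b with hc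
  have hc0 : 0 < c := by positivity
  obtain ⟨J, hJ⟩ := exists_nat_gt (L / c)
  have hJ' : L ≤ J * c := by
    rw [div_lt_iff₀ hc0] at hJ
    exact hJ.le
  refine ⟨r / 2 ^ J, by positivity, fun ε hε hεJ => ?_⟩
  set f : Cn b → ℝ := fun z => ((K * (‖z - z₀‖ ^ 2 + ε ^ 2)) ^ b)⁻¹ with hf
  have hfc : Continuous f := by
    refine Continuous.inv₀ (by fun_prop) fun z => ?_
    positivity
  have hf0 : ∀ z, 0 ≤ f z := fun z => by
    simp only [hf]
    positivity
  set B : ℕ → Set (Cn b) := fun j => ball z₀ (r / 2 ^ j) with hB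
  have hBI : ∀ j, IntegrableOn f (B j) := fun j =>
    (hfc.continuousOn.integrableOn_compact (isCompact_closedBall z₀ (r / 2 ^ j))).mono_set
      ball_subset_closedBall
  have hBs : ∀ j, B (j + 1) ⊆ B j := fun j => by
    refine ball_subset_ball ?_
    rw [pow_succ]
    refine div_le_div_of_nonneg_left hr.le (by positivity) ?_
    have : (0 : ℝ) < 2 ^ j := by positivity
    linarith
  have hBm : ∀ j, MeasurableSet (B j) := fun j => measurableSet_ball
  have hstep : ∀ j < J, c + ∫ z in B (j + 1), f z ≤ ∫ z in B j, f z := by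
    intro j hj
    have h1 := setIntegral_sdiff (hBm (j + 1)) (hBI j) (hBs j)
    have hρ : 0 < r / 2 ^ j := by positivity
    set ρ := r / 2 ^ j with hρd
    have hρ2 : r / 2 ^ (j + 1) = ρ / 2 := by
      rw [hρd, pow_succ]
      field_simp
    have hερ : ε ≤ ρ := by
      refine hεJ.le.trans ?_
      exact div_le_div_of_nonneg_left hr.le (by positivity)
        (pow_le_pow_right₀ (by norm_num) hj.le)
    have hlow : ∀ z ∈ B j \ B (j + 1), ((2 * K) ^ b * ρ ^ (2 * b))⁻¹ ≤ f z := by
      intro z hz
      have h2 : ‖z - z₀‖ ≤ ρ := by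
        have := hz.1
        rw [hB, mem_ball, dist_eq_norm] at this
        exact this.le
      simp only [hf]
      refine inv_anti₀ (by positivity) ?_
      rw [pow_mul, ← mul_pow]
      refine pow_le_pow_left₀ (by positivity) ?_ b
      have h3 : ‖z - z₀‖ ^ 2 ≤ ρ ^ 2 := pow_le_pow_left₀ (norm_nonneg _) h2 2
      have h4 : ε ^ 2 ≤ ρ ^ 2 := pow_le_pow_left₀ hε.le hερ 2
      nlinarith
    have h5 := setIntegral_ge_of_const_le_real ((hBm j).diff (hBm (j + 1)))
      ((measure_mono sdiff_subset).trans_lt (measure_ball_lt_top (x := z₀) (r := ρ))).ne hlow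
      ((hBI j).mono_set sdiff_subset)
    have h6 : (volume : Measure (Cn b)).real (B j \ B (j + 1)) =
        ρ ^ (2 * b) * v - (ρ / 2) ^ (2 * b) * v := by
      have h7 := measureReal_sdiff_add_inter (μ := (volume : Measure (Cn b))) (s := B j)
        (hBm (j + 1)) (measure_ball_lt_top (x := z₀) (r := ρ)).ne
      rw [inter_eq_self_of_subset_right (hBs j)] at h7
      have h8 : (volume : Measure (Cn b)).real (B j) = ρ ^ (2 * b) * v := vol_ball z₀ hρ
      have h9 : (volume : Measure (Cn b)).real (B (j + 1)) = (ρ / 2) ^ (2 * b) * v := by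
        simp only [hB]
        rw [hρ2]
        exact vol_ball z₀ (by positivity)
      linarith
    have h10 : c ≤ ((2 * K) ^ b * ρ ^ (2 * b))⁻¹ *
        (volume : Measure (Cn b)).real (B j \ B (j + 1)) := by
      rw [h6, div_pow ρ 2]
      have h11 : (1 : ℝ) / 2 ^ (2 * b) ≤ 1 / 4 := by
        refine div_le_div_of_nonneg_left zero_le_one (by norm_num) ?_
        calc (4 : ℝ) = 2 ^ (2 * 1) := by norm_num
          _ ≤ 2 ^ (2 * b) := pow_le_pow_right₀ (by norm_num) (by omega)
      have h12 : ((2 * K) ^ b * ρ ^ (2 * b))⁻¹ * (ρ ^ (2 * b) * v - ρ ^ (2 * b) / 2 ^ (2 * b) * v) =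
          (1 - 1 / 2 ^ (2 * b)) * v / (2 * K) ^ b := by
        have : ρ ^ (2 * b) ≠ 0 := by positivity
        field_simp
      rw [h12, hc]
      refine div_le_div_of_nonneg_right ?_ (by positivity)
      exact mul_le_mul_of_nonneg_right (by linarith) hv0.le
    linarith
  have hind : ∀ j ≤ J, j * c + ∫ z in B j, f z ≤ ∫ z in B 0, f z := by
    intro j
    induction j with
    | zero =>
      intro _
      simp
    | succ j ih =>
      intro hj
      have h1 := ih (by omega)
      have h2 := hstep j (by omega)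
      push_cast
      linarith
  have hfin := hind J le_rfl
  have hpos : 0 ≤ ∫ z in B J, f z := integral_nonneg hf0
  have hB0 : B 0 = ball z₀ r := by simp [hB]
  rw [hB0] at hfin
  linarith

end Pool.Agent.Helper80.SP
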