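import Pool.Agent.Helper10.SP.GoalsT
import Pool.Agent.Helper95.Lin.Basics

/-! # Packet SWAP: unfolding over an étale relation -/

open Complex Metric Set Filter Topology MeasureTheory
open scoped ContDiff ComplexConjugate ComplexOrder

namespace Pool.Agent.Helper80.SP

open Pool.Agent.Helper95.Lin Pool.Agent.Helper10.SP

universe u

/-- The arrows ending in `U`. -/
theorem AS_inv {n : ℕ} {T : Set (Cn n)} {G : Type u} [Group G] {R : G → Cn n → Cn n → Prop}
    (hR : Et T R) {C' U : Set (Cn n)} {m : ℕ} {γ : Fin m → G} {τ : Fin m → Cn n → Cn n}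
    (hA : ∀ k, LAr R (γ k) U (τ k) ∧ InjOn (τ k) U)
    (hD : ∀ x ∈ U, ∀ k l, γ k = γ l → τ k x = τ l x → k = l)
    (hC : ∀ x ∈ U, ∀ γ' y, R γ' x y → y ∈ C' → ∃ k, γ' = γ k ∧ y = τ k x)
    (f : Cn n → ℂ) (hf : ∀ x ∉ U, f x = 0) (y : Cn n) (hy : y ∈ C') :
    AS R y (fun _ x => f x) =
      ∑ k, (τ k '' U).indicator (fun y => f (Function.invFunOn (τ k) U y)) y := by
  classical
  have hs1 : ∀ k, y ∈ τ k '' U → Function.invFunOn (τ k) U y ∈ U := fun k hk =>
    Function.invFunOn_mem hk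
  have hs2 : ∀ k, y ∈ τ k '' U → τ k (Function.invFunOn (τ k) U y) = y := fun k hk =>
    Function.invFunOn_eq hk
  set K : Set (Fin m) := {k | y ∈ τ k '' U} with hK
  set e : Fin m → G × Cn n := fun k => ((γ k)⁻¹, Function.invFunOn (τ k) U y) with he
  have hinj : InjOn e K := by
    intro k hk l hl hkl
    simp only [he, Prod.mk.injEq, inv_inj] at hkl
    refine hD (Function.invFunOn (τ k) U y) (hs1 k hk) k l hkl.1 ?_
    rw [hs2 k hk, hkl.2, hs2 l hl]
  have h1 : AS R y (fun _ x => f x) = ∑ᶠ p ∈ {p : G × Cn n | R p.1 y p.2}, f p.2 := rfl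
  have h2 : ∑ᶠ p ∈ {p : G × Cn n | R p.1 y p.2}, f p.2 = ∑ᶠ p ∈ e '' K, f p.2 := by
    refine finsum_mem_inter_support_eq' _ _ _ ?_
    intro p hp
    have hpU : p.2 ∈ U := by
      by_contra hn
      exact hp (hf _ hn)
    constructor
    · intro h
      have h3 := hR.inv _ _ _ h
      obtain ⟨k, hk, hyk⟩ := hC p.2 hpU _ y h3 hy
      have hyU : y ∈ τ k '' U := ⟨p.2, hpU, hyk.symm⟩
      refine ⟨k, hyU, ?_⟩
      simp only [he]
      refine Prod.ext ?_ ?_
      · simp only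
        rw [← hk, inv_inv]
      · simp only
        exact (hA k).2 (hs1 k hyU) hpU (by rw [hs2 k hyU, hyk])
    · rintro ⟨k, hk, rfl⟩
      have h3 := (hA k).1.2.2 _ (hs1 k hk)
      rw [hs2 k hk] at h3
      exact hR.inv _ _ _ h3
  have h3 : ∑ᶠ p ∈ e '' K, f p.2 = ∑ᶠ k ∈ K, f (e k).2 := finsum_mem_image hinj
  rw [h1, h2, h3, finsum_mem_def, finsum_eq_sum_of_fintype]
  refine Finset.sum_congr rfl fun k _ => ?_
  by_cases hk : y ∈ τ k '' U
  · rw [indicator_of_mem (show k ∈ K from hk), indicator_of_mem hk]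
  · rw [indicator_of_notMem (show k ∉ K from hk), indicator_of_notMem hk]

/-- The statement of SWAP. -/
def Cl {n : ℕ} (T : Set (Cn n)) {G : Type u} (R : G → Cn n → Cn n → Prop) (ρ : Cn n → ℝ)
    (g f : Cn n → ℂ) : Prop :=
  IntegrableOn (fun x => f x * AS R x (fun _ y => g y) * (ρ x : ℂ)) T ∧
  IntegrableOn (fun x => g x * AS R x (fun _ y => f y) * (ρ x : ℂ)) T ∧
  ∫ x in T, f x * AS R x (fun _ y => g y) * (ρ x : ℂ) =
    ∫ x in T, g x * AS R x (fun _ y => f y) * (ρ x : ℂ)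

theorem cl_local {n : ℕ} {T : Set (Cn n)} {G : Type u} [Group G] {R : G → Cn n → Cn n → Prop}
    (hR : Et T R) {ρ : Cn n → ℝ} (hρ : ContinuousOn ρ T)
    (hρi : ∀ U τ, Arr R U τ → ∀ x ∈ U, ρ x = ρ (τ x) * ‖(fderiv ℂ τ x).det‖ ^ 2)
    {C C' U : Set (Cn n)} (hCT : C ⊆ T) (hCc : IsCompact C)
    (hC'c : IsCompact C') {m : ℕ} {γ : Fin m → G}
    {τ : Fin m → Cn n → Cn n} (hU : IsOpen U) (hUT : U ⊆ T)
    (hA : ∀ k, LAr R (γ k) U (τ k) ∧ InjOn (τ k) U)
    (hD : ∀ x ∈ U, ∀ k l, γ k = γ l → τ k x = τ l x → k = l)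
    (hC : ∀ x ∈ U, ∀ γ' y, R γ' x y → y ∈ C' → ∃ k, γ' = γ k ∧ y = τ k x)
    (hS : ∀ (E : Type) [AddCommMonoid E] (f : G → Cn n → E), (∀ γ' y, y ∉ C' → f γ' y = 0) →
      ∀ x ∈ U, AS R x f = ∑ k, f (γ k) (τ k x))
    (f g : Cn n → ℂ) (hf : Integrable f) (hfC : ∀ x ∉ C, f x = 0) (hfU : ∀ x ∉ U, f x = 0)
    (hg : Continuous g) (hgC : ∀ x ∉ C', g x = 0) : Cl T R ρ g f := by
  classical
  have hTm : MeasurableSet T := hR.isOpen.measurableSet
  have hUm : MeasurableSet U := hU.measurableSet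
  obtain ⟨Mg, hMg⟩ : ∃ M : ℝ, ∀ x, ‖g x‖ ≤ M :=
    hg.bounded_above_of_compact_support (HasCompactSupport.intro hC'c fun x hx => hgC x hx)
  have hMg0 : 0 ≤ Mg := (norm_nonneg _).trans (hMg 0)
  obtain ⟨Mr, hMr⟩ : ∃ M : ℝ, ∀ x ∈ C, ‖ρ x‖ ≤ M :=
    hCc.exists_bound_of_continuousOn (hρ.mono hCT)
  have hd : ∀ k, ∀ x ∈ U, HasFDerivWithinAt (τ k) ((fderiv ℂ (τ k) x).restrictScalars ℝ) U x := by
    intro k x hx
    exact (((hA k).1.2.1.differentiableAt (hU.mem_nhds hx)).hasFDerivAt.restrictScalars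
      ℝ).hasFDerivWithinAt
  have hdet : ∀ k x, |((fderiv ℂ (τ k) x).restrictScalars ℝ).det| = ‖(fderiv ℂ (τ k) x).det‖ ^ 2 := by
    intro k x
    rw [Pool.Agent.Helper36.Abund.det_restrictScalars_eq, abs_of_nonneg (by positivity)]
  have hmap : ∀ k, ∀ x ∈ U, τ k x ∈ T := fun k x hx => (hR.mem _ _ _ ((hA k).1.2.2 x hx)).2
  have hτc : ∀ k, ContinuousOn (τ k) U := fun k => (hA k).1.2.1.continuousOn
  -- the pieces
  set a : Fin m → Cn n → ℂ := fun k x => f x * g (τ k x) * (ρ x : ℂ) with ha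
  set b : Fin m → Cn n → ℂ := fun k y => g y * f (Function.invFunOn (τ k) U y) * (ρ y : ℂ) with hb
  have haI : ∀ k, IntegrableOn (a k) U := by
    intro k
    have h1 : AEStronglyMeasurable (a k) (volume.restrict U) := by
      refine (hf.aestronglyMeasurable.restrict.mul ?_).mul ?_
      · exact (hg.comp_continuousOn (hτc k)).aestronglyMeasurable hUm
      · exact (Complex.continuous_ofReal.comp_continuousOn
          (hρ.mono hUT)).aestronglyMeasurable hUm
    refine Integrable.mono' (g := fun x => Mg * Mr * ‖f x‖) ((hf.norm.const_mul _).restrict) h1 ?_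
    refine Eventually.of_forall fun x => ?_
    by_cases hx : x ∈ C
    · simp only [ha, norm_mul, Complex.norm_real]
      calc ‖f x‖ * ‖g (τ k x)‖ * ‖ρ x‖ ≤ ‖f x‖ * Mg * Mr :=
            mul_le_mul (mul_le_mul_of_nonneg_left (hMg _) (norm_nonneg _)) (hMr x hx)
              (norm_nonneg _) (by positivity)
        _ = Mg * Mr * ‖f x‖ := by ring
    · simp [ha, hfC x hx]
  have hab : ∀ k, ∀ x ∈ U, |((fderiv ℂ (τ k) x).restrictScalars ℝ).det| • b k (τ k x) = a k x := by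
    intro k x hx
    have h1 : Function.invFunOn (τ k) U (τ k x) = x :=
      (hA k).2 (Function.invFunOn_mem ⟨x, hx, rfl⟩) hx (Function.invFunOn_eq ⟨x, hx, rfl⟩)
    have h2 := hρi U (τ k) ⟨hU, (hA k).1.2.1, γ k, (hA k).1.2.2⟩ x hx
    simp only [ha, hb]
    rw [h1, hdet, Complex.real_smul, h2]
    push_cast
    ring
  have hbI : ∀ k, IntegrableOn (b k) (τ k '' U) := by
    intro k
    rw [integrableOn_image_iff_integrableOn_abs_det_fderiv_smul volume hUm (hd k) (hA k).2]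
    exact (haI k).congr_fun (fun x hx => (hab k x hx).symm) hUm
  have hbe : ∀ k, ∫ y in τ k '' U, b k y = ∫ x in U, a k x := by
    intro k
    rw [integral_image_eq_integral_abs_det_fderiv_smul volume hUm (hd k) (hA k).2]
    exact setIntegral_congr_fun hUm fun x hx => hab k x hx
  have himm : ∀ k, MeasurableSet (τ k '' U) := fun k =>
    measurable_image_of_fderivWithin hUm (hd k) (hA k).2
  have himT : ∀ k, τ k '' U ⊆ T := by
    rintro k _ ⟨x, hx, rfl⟩
    exact hmap k x hx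
  -- left
  have hL : ∀ x ∈ T, f x * AS R x (fun _ y => g y) * (ρ x : ℂ) = ∑ k, U.indicator (a k) x := by
    intro x _
    by_cases hx : x ∈ U
    · rw [hS ℂ (fun _ y => g y) (fun _ y hy => hgC y hy) x hx, Finset.mul_sum, Finset.sum_mul]
      refine Finset.sum_congr rfl fun k _ => ?_
      rw [indicator_of_mem hx]
    · rw [hfU x hx, zero_mul, zero_mul]
      refine (Finset.sum_eq_zero fun k _ => ?_).symm
      rw [indicator_of_notMem hx]
  have hRr : ∀ y ∈ T, g y * AS R y (fun _ x => f x) * (ρ y : ℂ) =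
      ∑ k, (τ k '' U).indicator (b k) y := by
    intro y _
    by_cases hy : y ∈ C'
    · rw [AS_inv hR hA hD hC f hfU y hy, Finset.mul_sum, Finset.sum_mul]
      refine Finset.sum_congr rfl fun k _ => ?_
      by_cases hk : y ∈ τ k '' U
      · rw [indicator_of_mem hk, indicator_of_mem hk]
      · rw [indicator_of_notMem hk, indicator_of_notMem hk, mul_zero, zero_mul]
    · rw [hgC y hy, zero_mul, zero_mul]
      refine (Finset.sum_eq_zero fun k _ => ?_).symm
      by_cases hk : y ∈ τ k '' U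
      · rw [indicator_of_mem hk]
        simp [hb, hgC y hy]
      · rw [indicator_of_notMem hk]
  have haI' : ∀ k, IntegrableOn (U.indicator (a k)) T := fun k =>
    ((integrable_indicator_iff hUm).2 (haI k)).integrableOn
  have hbI' : ∀ k, IntegrableOn ((τ k '' U).indicator (b k)) T := fun k =>
    ((integrable_indicator_iff (himm k)).2 (hbI k)).integrableOn
  refine ⟨?_, ?_, ?_⟩
  · exact (integrable_finsetSum _ fun k _ => haI' k).congr
      ((ae_restrict_iff' hTm).2 (Eventually.of_forall fun x hx => (hL x hx).symm))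
  · exact (integrable_finsetSum _ fun k _ => hbI' k).congr
      ((ae_restrict_iff' hTm).2 (Eventually.of_forall fun x hx => (hRr x hx).symm))
  · rw [setIntegral_congr_fun hTm hL, setIntegral_congr_fun hTm hRr,
      integral_finsetSum _ fun k _ => haI' k, integral_finsetSum _ fun k _ => hbI' k]
    refine Finset.sum_congr rfl fun k _ => ?_
    rw [setIntegral_indicator hUm, setIntegral_indicator (himm k),
      inter_eq_self_of_subset_right hUT, inter_eq_self_of_subset_right (himT k), hbe k]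

theorem cl_add {n : ℕ} {T : Set (Cn n)} {G : Type u} [Group G] {R : G → Cn n → Cn n → Prop}
    (hR : Et T R) {ρ : Cn n → ℝ} {C : Set (Cn n)}
    (hfin : ∀ x ∈ T, {p : G × Cn n | R p.1 x p.2 ∧ p.2 ∈ C}.Finite)
    (g f₁ f₂ : Cn n → ℂ) (h₁ : ∀ x ∉ C, f₁ x = 0) (h₂ : ∀ x ∉ C, f₂ x = 0)
    (hc₁ : Cl T R ρ g f₁) (hc₂ : Cl T R ρ g f₂) : Cl T R ρ g (fun x => f₁ x + f₂ x) := by
  have hTm : MeasurableSet T := hR.isOpen.measurableSet
  have hAS : ∀ x ∈ T, AS R x (fun _ y => f₁ y + f₂ y) =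
      AS R x (fun _ y => f₁ y) + AS R x (fun _ y => f₂ y) := by
    intro x hx
    have hsub : ∀ f : Cn n → ℂ, (∀ x ∉ C, f x = 0) →
        ({p : G × Cn n | R p.1 x p.2} ∩ Function.support fun p : G × Cn n => f p.2).Finite := by
      intro f hf
      refine (hfin x hx).subset ?_
      rintro p ⟨hp1, hp2⟩
      refine ⟨hp1, ?_⟩
      by_contra hn
      exact hp2 (hf _ hn)
    exact finsum_mem_add_distrib' (hsub f₁ h₁) (hsub f₂ h₂)
  obtain ⟨a1, a2, a3⟩ := hc₁
  obtain ⟨b1, b2, b3⟩ := hc₂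
  have e1 : ∀ x ∈ T, f₁ x * AS R x (fun _ y => g y) * (ρ x : ℂ) +
      f₂ x * AS R x (fun _ y => g y) * (ρ x : ℂ) =
      (f₁ x + f₂ x) * AS R x (fun _ y => g y) * (ρ x : ℂ) := by
    intro x _
    ring
  have e2 : ∀ x ∈ T, g x * AS R x (fun _ y => f₁ y) * (ρ x : ℂ) +
      g x * AS R x (fun _ y => f₂ y) * (ρ x : ℂ) =
      g x * AS R x (fun _ y => f₁ y + f₂ y) * (ρ x : ℂ) := by
    intro x hx
    rw [hAS x hx]
    ring
  refine ⟨(a1.add b1).congr_fun e1 hTm, (a2.add b2).congr_fun e2 hTm, ?_⟩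
  rw [← setIntegral_congr_fun hTm e1, ← setIntegral_congr_fun hTm e2, integral_add a1 b1,
    integral_add a2 b2, a3, b3]

/-- **Packet SWAP.** -/
theorem swap (hLFIN : S_LFIN.{u}) : S_SWAP.{u} := by
  intro n T G _ R hR ρ hρ hρi C hCT hCc C' hC'T hC'c f g hf hfC hg hgC
  classical
  have hfin : ∀ x ∈ T, {p : G × Cn n | R p.1 x p.2 ∧ p.2 ∈ C}.Finite := by
    intro x hx
    obtain ⟨U, m, γ, τ, hxU, -, -, -, -, hC, -⟩ := hLFIN T R hR C hCT hCc x hx
    refine (finite_range fun k : Fin m => (γ k, τ k x)).subset ?_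
    rintro p ⟨hp1, hp2⟩
    obtain ⟨k, hk1, hk2⟩ := hC x hxU _ _ hp1 hp2
    exact ⟨k, Prod.ext hk1.symm hk2.symm⟩
  have key : ∃ S, C ⊆ S ∧ MeasurableSet S ∧ ∀ f : Cn n → ℂ, Integrable f → (∀ x ∉ C, f x = 0) →
      (∀ x ∉ S, f x = 0) → Cl T R ρ g f := by
    refine hCc.induction_on (p := fun S₀ => ∃ S, S₀ ⊆ S ∧ MeasurableSet S ∧ ∀ f : Cn n → ℂ,
      Integrable f → (∀ x ∉ C, f x = 0) → (∀ x ∉ S, f x = 0) → Cl T R ρ g f) ?_ ?_ ?_ ?_
    · refine ⟨∅, le_rfl, MeasurableSet.empty, fun f _ _ hf0 => ?_⟩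
      have hf0' : f = fun _ => 0 := funext fun x => hf0 x (notMem_empty x)
      subst hf0'
      have h0 : ∀ x, AS R x (fun _ _ => (0 : ℂ)) = 0 := by
        intro x
        simp [AS]
      refine ⟨?_, ?_, ?_⟩
      · simp
      · simp [h0]
      · simp [h0]
    · rintro s t hst ⟨S, h1, h2, h3⟩
      exact ⟨S, hst.trans h1, h2, h3⟩
    · rintro s t ⟨S₁, h1, h2, h3⟩ ⟨S₂, k1, k2, k3⟩
      refine ⟨S₁ ∪ S₂, union_subset_union h1 k1, h2.union k2, fun f hf hfC hfS => ?_⟩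
      have hd1 := h3 (S₁.indicator f) (hf.indicator h2)
        (fun x hx => by rw [indicator_apply, hfC x hx, ite_self])
        (fun x hx => indicator_of_notMem hx _)
      have hd2 := k3 (S₁ᶜ.indicator f) (hf.indicator h2.compl)
        (fun x hx => by rw [indicator_apply, hfC x hx, ite_self])
        (fun x hx => by
          by_cases hx1 : x ∈ S₁
          · exact indicator_of_notMem (fun h : x ∈ S₁ᶜ => h hx1) _
          · rw [indicator_apply, hfS x (fun h => h.elim hx1 hx), ite_self])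
      have hd3 := cl_add hR hfin g _ _
        (fun x hx => by rw [indicator_apply, hfC x hx, ite_self])
        (fun x hx => by rw [indicator_apply, hfC x hx, ite_self]) hd1 hd2
      have he : (fun x => S₁.indicator f x + S₁ᶜ.indicator f x) = f :=
        indicator_self_add_compl S₁ f
      rwa [he] at hd3
    · intro x hx
      obtain ⟨U, m, γ, τ, hxU, hU, hUT, hA, hD, hC, hS⟩ := hLFIN T R hR C' hC'T hC'c x (hCT hx)
      exact ⟨U, mem_nhdsWithin_of_mem_nhds (hU.mem_nhds hxU), U, le_rfl, hU.measurableSet,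
        fun f hf hfC hfU => cl_local hR hρ hρi hCT hCc hC'c hU hUT hA hD hC hS f g hf hfC hfU
          hg hgC⟩
  obtain ⟨S, h1, -, h3⟩ := key
  exact h3 f hf hfC fun x hx => hfC x fun h => hx (h1 h)

end Pool.Agent.Helper80.SP
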